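import Pool.Agent.Work.MP_6f78fb_rk.Interface

open scoped BigOperators TensorProduct
open Classical

noncomputable section

namespace Pool.RookLC.helper17

variable {n m : ℕ}

/-- the dimension of a space of functions of pairs with slices in given spaces -/
theorem finrank_slices (hT : Stmt_TENS) (P Q : Submodule ℂ (Fn n m))
    (R : Submodule ℂ (Fn2 n m))
    (hR : ∀ F : Fn2 n m, F ∈ R ↔ (∀ b, (fun a => F (a, b)) ∈ P) ∧ ∀ a, (fun b => F (a, b)) ∈ Q) :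
    Module.finrank ℂ ↥R = Module.finrank ℂ ↥P * Module.finrank ℂ ↥Q := by
  obtain ⟨e, he, -, hr⟩ := hT (Cf n m) (Cf n m) P Q
  have h1 : R = LinearMap.range e := by
    ext F
    rw [hR, hr]
  rw [h1, LinearMap.finrank_range_of_inj he, Module.finrank_tensorProduct]

theorem finrank_le_of_inj (W : Submodule ℂ (Fn2 n m)) (W' : Submodule ℂ (Fn2 n m))
    (Θ : Fn2 n m →ₗ[ℂ] Fn2 n m) (h : ∀ f ∈ W, Θ f ∈ W' ∧ (Θ f = 0 → f = 0)) :
    Module.finrank ℂ ↥W ≤ Module.finrank ℂ ↥W' := by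
  refine LinearMap.finrank_le_finrank_of_injective
    (f := Θ.restrict (p := W) (q := W') fun x hx => (h x hx).1) ?_
  rw [← LinearMap.ker_eq_bot, LinearMap.ker_eq_bot']
  rintro ⟨x, hx⟩ h0
  have : Θ x = 0 := congrArg Subtype.val h0
  exact Subtype.ext ((h x hx).2 this)

theorem finrank_UH_le_NH (hLT : Stmt_LT) (l : Bool) (P : ℕ → ℕ → ℕ → ℕ → Prop) :
    Module.finrank ℂ ↥(UH n m l ⊓ S2 n m P) ≤ Module.finrank ℂ ↥(NH n m l ⊓ S2 n m P) := by
  obtain ⟨Θ, -, hΘ⟩ := hLT n m l P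
  exact finrank_le_of_inj _ _ Θ hΘ

theorem S2_congr {P Q : ℕ → ℕ → ℕ → ℕ → Prop} (h : ∀ a b s t, P a b s t ↔ Q a b s t) :
    S2 n m P = S2 n m Q := by
  have : P = Q := by
    funext a b s t
    exact propext (h a b s t)
  rw [this]

/-- the general argument -/
theorem fin_gen (hLT : Stmt_LT) (hSPLIT : Stmt_SPLIT) (l : Bool) (i h : ℕ)
    (hall : Module.finrank ℂ ↥(NH n m l ⊓ S2 n m (fun a b _ _ => a = i ∧ b = i)) ≤
      Module.finrank ℂ ↥(UH n m l ⊓ S2 n m (fun a b _ _ => a = i ∧ b = i))) :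
    Module.finrank ℂ ↥(NH n m l ⊓ S2 n m (PP i i h)) ≤
      Module.finrank ℂ ↥(UH n m l ⊓ S2 n m (PP i i h)) := by
  obtain ⟨h1, h2⟩ := hSPLIT n m l (fun a b _ _ => a = i ∧ b = i) (fun _ _ s t => s ≤ h ∧ t ≤ h)
  have h3 := finrank_UH_le_NH (n := n) (m := m) hLT l
    (fun a b s t => (a = i ∧ b = i) ∧ ¬ (s ≤ h ∧ t ≤ h))
  have h4 : S2 n m (fun a b s t => (a = i ∧ b = i) ∧ (s ≤ h ∧ t ≤ h)) = S2 n m (PP i i h) := by
    refine S2_congr fun a b s t => ?_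
    unfold PP
    tauto
  rw [h4] at h1 h2
  rw [h1, h2] at hall
  omega

/-- slices for `UH` -/
theorem finrank_UH_all (hT : Stmt_TENS) (l : Bool) (i : ℕ) :
    Module.finrank ℂ ↥(UH n m l ⊓ S2 n m (fun a b _ _ => a = i ∧ b = i)) =
      Module.finrank ℂ ↥(H1 n m l ⊓ S1 n m (fun a _ => a = i)) ^ 2 := by
  rw [pow_two]
  refine finrank_slices hT _ _ _ fun F => ?_
  constructor
  · rintro ⟨⟨h1, h2⟩, h3⟩
    exact ⟨fun β => ⟨h1 β, fun α hα => (h3 (α, β) hα).1⟩,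
      fun α => ⟨h2 α, fun β hβ => (h3 (α, β) hβ).2⟩⟩
  · rintro ⟨h1, h2⟩
    exact ⟨⟨fun β => (h1 β).1, fun α => (h2 α).1⟩,
      fun ω hω => ⟨(h1 ω.2).2 ω.1 hω, (h2 ω.1).2 ω.2 hω⟩⟩

/-- `Lop` maps the harmonic functions onto -/
theorem finrank_le_H1 (hS : Stmt_SPAN) (l : Bool) (i : ℕ) (W : Submodule ℂ (Fn n m))
    (hW : ∀ φ ∈ W, (∀ α, φ α ≠ 0 → Um i α) ∧ (l = true → LabH φ)) :
    Module.finrank ℂ ↥W ≤ Module.finrank ℂ ↥(H1 n m l ⊓ S1 n m (fun a _ => a = i)) := by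
  have h1 : W ≤ (H1 n m l ⊓ S1 n m (fun a _ => a = i)).map (Lop n m) := by
    intro φ hφ
    obtain ⟨h2, h3⟩ := hW φ hφ
    obtain ⟨g, hg, hgφ⟩ := hS n m i l φ h2 h3
    exact ⟨g, hg, hgφ⟩
  exact (Submodule.finrank_mono h1).trans (Submodule.finrank_map_le _ _)

/-- functions supported on unmarked placements of size `i` -/
def SU1 (n m i : ℕ) : Submodule ℂ (Fn n m) where
  carrier := {f | ∀ α, f α ≠ 0 → Um i α}
  zero_mem' := by intro α h; exact absurd rfl h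
  add_mem' := by
    intro f g hf hg α h
    by_contra hv
    have h1 : f α = 0 := by by_contra h1; exact hv (hf α h1)
    have h2 : g α = 0 := by by_contra h2; exact hv (hg α h2)
    exact h (by rw [Pi.add_apply, h1, h2, add_zero])
  smul_mem' := by
    intro c f hf α h
    exact hf α (fun h1 => h (by rw [Pi.smul_apply, h1, smul_zero]))

/-- the same for pairs -/
def SU2 (n m i : ℕ) : Submodule ℂ (Fn2 n m) where
  carrier := {f | ∀ ω, f ω ≠ 0 → Um i ω.1 ∧ Um i ω.2}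
  zero_mem' := by intro α h; exact absurd rfl h
  add_mem' := by
    intro f g hf hg α h
    by_contra hv
    have h1 : f α = 0 := by by_contra h1; exact hv (hf α h1)
    have h2 : g α = 0 := by by_contra h2; exact hv (hg α h2)
    exact h (by rw [Pi.add_apply, h1, h2, add_zero])
  smul_mem' := by
    intro c f hf α h
    exact hf α (fun h1 => h (by rw [Pi.smul_apply, h1, smul_zero]))

theorem dd_mk (A : Cf n m) (T : Finset (Fin n)) (hT : T ⊆ supp A) : dd (mk A T) = dd A := by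
  unfold dd
  congr 1
  ext a
  simp only [Finset.mem_filter, Finset.mem_univ, true_and]
  unfold mk
  by_cases ha : a ∈ T
  · rw [if_pos ha]
    have := hT ha
    unfold supp at this
    rw [Finset.mem_filter] at this
    simpa using this.2
  · rw [if_neg ha]

theorem free_sub (A B : Cf n m) : free A B ⊆ supp A := by
  intro a ha
  unfold free at ha
  unfold supp
  rw [Finset.mem_filter] at ha ⊢
  obtain ⟨_, x, hx, _⟩ := ha
  exact ⟨Finset.mem_univ _, by rw [hx]; simp⟩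

theorem Lop2_supp (i : ℕ) (g : Fn2 n m) (hg : g ∈ S2 n m (fun a b _ _ => a = i ∧ b = i)) :
    Lop2 n m g ∈ SU2 n m i := by
  intro ω hω
  change (if Valid2 ω ∧ tt ω.1 = 0 ∧ tt ω.2 = 0 then
    ∑ T ∈ (free ω.1 ω.2).powerset, ∑ T' ∈ (free ω.2 ω.1).powerset, g (mk ω.1 T, mk ω.2 T')
    else 0) ≠ 0 at hω
  by_cases hv : Valid2 ω ∧ tt ω.1 = 0 ∧ tt ω.2 = 0
  · rw [if_pos hv] at hω
    obtain ⟨T, hT, hT2⟩ := Finset.exists_ne_zero_of_sum_ne_zero hω
    obtain ⟨T', hT', hT2'⟩ := Finset.exists_ne_zero_of_sum_ne_zero hT2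
    have h1 := hg _ hT2'
    simp only at h1
    rw [dd_mk _ _ ((Finset.mem_powerset.1 hT).trans (free_sub _ _)),
      dd_mk _ _ ((Finset.mem_powerset.1 hT').trans (free_sub _ _))] at h1
    exact ⟨⟨hv.1.1, hv.2.1, h1.1⟩, ⟨hv.1.2, hv.2.2, h1.2⟩⟩
  · rw [if_neg hv] at hω
    exact absurd rfl hω

theorem stmt_FIN (hSPAN : Stmt_SPAN) (hINJ2 : Stmt_INJ2) (hLT : Stmt_LT) (hSPLIT : Stmt_SPLIT)
    (hTENS : Stmt_TENS) : Stmt_FIN := by
  intro n m i h hi
  refine fin_gen hLT hSPLIT false i h ?_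
  have h1 : Module.finrank ℂ ↥(NH n m false ⊓ S2 n m (fun a b _ _ => a = i ∧ b = i)) ≤
      Module.finrank ℂ ↥(SU2 n m i) :=
    finrank_le_of_inj _ _ (Lop2 n m) fun f hf =>
      ⟨Lop2_supp i f (Submodule.mem_inf.1 hf).2, hINJ2 n m i hi f hf⟩
  have h2 : Module.finrank ℂ ↥(SU2 n m i) = Module.finrank ℂ ↥(SU1 n m i) ^ 2 := by
    rw [pow_two]
    refine finrank_slices hTENS _ _ _ fun F => ?_
    constructor
    · intro h3
      exact ⟨fun β α hα => (h3 (α, β) hα).1, fun α β hβ => (h3 (α, β) hβ).2⟩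
    · rintro ⟨h3, h4⟩ ω hω
      exact ⟨h3 ω.2 ω.1 hω, h4 ω.1 ω.2 hω⟩
  have h3 : Module.finrank ℂ ↥(SU1 n m i) ≤
      Module.finrank ℂ ↥(H1 n m false ⊓ S1 n m (fun a _ => a = i)) :=
    finrank_le_H1 hSPAN false i _ fun φ hφ => ⟨hφ, fun h => absurd h (by simp)⟩
  rw [finrank_UH_all hTENS]
  exact h1.trans (h2.le.trans (Nat.pow_le_pow_left h3 2))

end Pool.RookLC.helper17
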