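import Pool.Agent.Work.MP_6f78fb_rk_helper17.FIN

open scoped BigOperators TensorProduct
open Classical

noncomputable section

namespace Pool.RookLC.helper17

theorem stmt_FIN2 (hSPAN : Stmt_SPAN) (hINJ2 : Stmt_INJ2) (hL2LAB : Stmt_L2LAB)
    (hTRA : Stmt_TRA) (hLT : Stmt_LT) (hSPLIT : Stmt_SPLIT) (hTENS : Stmt_TENS) :
    Stmt_FIN2 := by
  intro n m i h hi hin
  refine fin_gen hLT hSPLIT true i h ?_
  have hNH : ∀ f, f ∈ NH n m true → f ∈ NH n m false := fun f hf =>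
    ⟨hf.1, hf.2.1, fun h => absurd h (by simp)⟩
  have h1 : Module.finrank ℂ ↥(NH n m true ⊓ S2 n m (fun a b _ _ => a = i ∧ b = i)) ≤
      Module.finrank ℂ ↥(LN2 n m i) :=
    finrank_le_of_inj _ _ (Lop2 n m) fun f hf =>
      ⟨hL2LAB n m i f hf, hINJ2 n m i hi f
        (Submodule.mem_inf.2 ⟨hNH f (Submodule.mem_inf.1 hf).1, (Submodule.mem_inf.1 hf).2⟩)⟩
  have h3 : Module.finrank ℂ ↥(LH1 n m i) ≤
      Module.finrank ℂ ↥(H1 n m true ⊓ S1 n m (fun a _ => a = i)) :=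
    finrank_le_H1 hSPAN true i _ fun φ hφ => ⟨hφ.1, fun _ => hφ.2⟩
  rw [finrank_UH_all hTENS]
  exact h1.trans ((hTRA n m i hin).trans (Nat.pow_le_pow_left h3 2))

end Pool.RookLC.helper17
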