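import Pool.Agent.Work.MP_6f78fb_rk.Interface

open scoped BigOperators TensorProduct
open Classical

noncomputable section

namespace Pool.RookLC.helper17

variable {n m : ℕ}

/-- number of coincidences of columns -/
def cc (ω : Pr n m) : ℕ :=
  (Finset.univ.filter fun p : Fin n × Fin n × Fin m =>
    ω.1 p.1 = some (some p.2.2) ∧ ω.2 p.2.1 = some (some p.2.2)).card

/-- number of coincidences of rows -/
def rc (ω : Pr n m) : ℕ := (Finset.univ.filter fun a : Fin n => ω.1 a ≠ none ∧ ω.2 a ≠ none).card

/-- the total number of coincidences -/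
def tot (l : Bool) (ω : Pr n m) : ℕ := cc ω + (if l = true then rc ω else 0)

theorem cc_swap (α β : Cf n m) : cc (β, α) = cc (α, β) := by
  unfold cc
  refine Finset.card_bij (fun p _ => (p.2.1, p.1, p.2.2)) ?_ ?_ ?_
  · rintro ⟨a, b, j⟩ h
    simp only [Finset.mem_filter, Finset.mem_univ, true_and] at h ⊢
    exact ⟨h.2, h.1⟩
  · rintro ⟨a, b, j⟩ _ ⟨a', b', j'⟩ _ h
    simp only [Prod.mk.injEq] at h ⊢
    exact ⟨h.2.1, h.1, h.2.2⟩
  · rintro ⟨a, b, j⟩ h
    simp only [Finset.mem_filter, Finset.mem_univ, true_and] at h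
    exact ⟨(b, a, j), by simpa using ⟨h.2, h.1⟩, rfl⟩

theorem rc_swap (α β : Cf n m) : rc (β, α) = rc (α, β) := by
  unfold rc
  congr 1
  ext a
  simp only [Finset.mem_filter, Finset.mem_univ, true_and]
  exact And.comm

theorem tot_swap (l : Bool) (α β : Cf n m) : tot l (β, α) = tot l (α, β) := by
  unfold tot
  rw [cc_swap, rc_swap]

/-- the coincidences of the object `o` with `β` -/
def nb (β : Cf n m) (o : Option (Fin m)) : ℕ :=
  (Finset.univ.filter fun b : Fin n => β b = some o ∧ o ≠ none).card

theorem cc_upd (α β : Cf n m) (a : Fin n) (o : Option (Fin m)) :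
    cc (Function.update α a (some o), β) = cc (Function.update α a none, β) + nb β o := by
  unfold cc nb
  have hsplit : (Finset.univ.filter fun p : Fin n × Fin n × Fin m =>
      Function.update α a (some o) p.1 = some (some p.2.2) ∧ β p.2.1 = some (some p.2.2)) =
      (Finset.univ.filter fun p : Fin n × Fin n × Fin m =>
        Function.update α a none p.1 = some (some p.2.2) ∧ β p.2.1 = some (some p.2.2)) ∪
      (Finset.univ.filter fun p : Fin n × Fin n × Fin m =>
        p.1 = a ∧ o = some p.2.2 ∧ β p.2.1 = some (some p.2.2)) := by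
    ext ⟨a', b, j⟩
    simp only [Finset.mem_filter, Finset.mem_univ, true_and, Finset.mem_union]
    by_cases ha : a' = a
    · subst ha
      simp only [Function.update_self, Option.some.injEq]
      constructor
      · rintro ⟨h1, h2⟩
        exact Or.inr ⟨trivial, h1, h2⟩
      · rintro (h | h)
        · exact absurd h.1 (by simp)
        · exact ⟨h.2.1, h.2.2⟩
    · simp [Function.update_of_ne ha, ha]
  rw [hsplit, Finset.card_union_of_disjoint]
  · congr 1
    refine Finset.card_bij (fun p _ => p.2.1) ?_ ?_ ?_
    · rintro ⟨a', b, j⟩ h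
      simp only [Finset.mem_filter, Finset.mem_univ, true_and] at h ⊢
      obtain ⟨h1, h2, h3⟩ := h
      subst h2
      exact ⟨h3, by simp⟩
    · rintro ⟨a', b, j⟩ h ⟨a'', b', j'⟩ h' hb
      simp only [Finset.mem_filter, Finset.mem_univ, true_and] at h h' hb
      obtain ⟨h1, h2, h3⟩ := h
      obtain ⟨h1', h2', h3'⟩ := h'
      rw [h2] at h2'
      simp only [Option.some.injEq] at h2'
      simp [h1, h1', hb, h2']
    · intro b hb
      simp only [Finset.mem_filter, Finset.mem_univ, true_and] at hb
      obtain ⟨h1, h2⟩ := hb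
      obtain ⟨j, rfl⟩ := Option.ne_none_iff_exists'.1 h2
      exact ⟨(a, b, j), by simp [h1], rfl⟩
  · rw [Finset.disjoint_left]
    rintro ⟨a', b, j⟩ h h'
    simp only [Finset.mem_filter, Finset.mem_univ, true_and] at h h'
    rw [h'.1, Function.update_self] at h
    exact absurd h.1 (by simp)

theorem rc_upd (α β : Cf n m) (a : Fin n) (o : Option (Fin m)) :
    rc (Function.update α a (some o), β) =
      rc (Function.update α a none, β) + (if β a = none then 0 else 1) := by
  unfold rc
  by_cases hb : β a = none
  · rw [if_pos hb, add_zero]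
    congr 1
    ext a'
    simp only [Finset.mem_filter, Finset.mem_univ, true_and]
    by_cases ha : a' = a
    · subst ha
      simp [hb]
    · simp [Function.update_of_ne ha]
  · rw [if_neg hb]
    have : (Finset.univ.filter fun a' : Fin n =>
        Function.update α a (some o) a' ≠ none ∧ β a' ≠ none) =
        insert a (Finset.univ.filter fun a' : Fin n =>
          Function.update α a none a' ≠ none ∧ β a' ≠ none) := by
      ext a'
      simp only [Finset.mem_filter, Finset.mem_univ, true_and, Finset.mem_insert]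
      by_cases ha : a' = a
      · subst ha
        simp [hb]
      · simp [Function.update_of_ne ha, ha]
    show (Finset.univ.filter fun a' : Fin n =>
        Function.update α a (some o) a' ≠ none ∧ β a' ≠ none).card = _
    rw [this, Finset.card_insert_of_notMem]
    simp

theorem nb_zero (β : Cf n m) (x : Fin m) (hx : x ∉ cols β) : nb β (some x) = 0 := by
  unfold nb
  rw [Finset.card_eq_zero, Finset.filter_eq_empty_iff]
  rintro b _ ⟨h, _⟩
  apply hx
  unfold cols
  rw [Finset.mem_filter]
  exact ⟨Finset.mem_univ _, b, h⟩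

theorem nb_pos (β : Cf n m) (x : Fin m) (hx : x ∈ cols β) : 0 < nb β (some x) := by
  unfold cols at hx
  rw [Finset.mem_filter] at hx
  obtain ⟨_, b, h⟩ := hx
  unfold nb
  rw [Finset.card_pos]
  exact ⟨b, by rw [Finset.mem_filter]; exact ⟨Finset.mem_univ _, h, by simp⟩⟩

theorem tot_upd_out (l : Bool) (α β : Cf n m) (a : Fin n) (x : Fin m) (hx : x ∉ cols β) :
    tot l (Function.update α a (some (some x)), β) =
      tot l (Function.update α a none, β) + (if l = true then (if β a = none then 0 else 1) else 0) := by
  unfold tot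
  rw [cc_upd, rc_upd, nb_zero β x hx]
  split_ifs <;> omega

theorem tot_upd_in (l : Bool) (α β : Cf n m) (a : Fin n) (x : Fin m) (hx : x ∈ cols β) :
    tot l (Function.update α a none, β) + (if l = true then (if β a = none then 0 else 1) else 0) <
      tot l (Function.update α a (some (some x)), β) := by
  unfold tot
  rw [cc_upd, rc_upd]
  have := nb_pos β x hx
  split_ifs <;> omega

theorem upd_none (α : Cf n m) (b : Fin n) (hb : α b = none) : Function.update α b none = α := by
  rw [← hb, Function.update_eq_self]

theorem tot_upd_lab (α β : Cf n m) (b : Fin n) (hb : α b = none) (s : Option (Fin m)) :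
    tot true (Function.update α b (some s), β) =
      tot true (α, β) + nb β s + (if β b = none then 0 else 1) := by
  unfold tot
  rw [cc_upd, rc_upd, upd_none α b hb]
  simp only [if_true]
  omega

theorem actC_apply (g : G n m) (α : Cf n m) (a : Fin n) :
    actC g α (g.1 a) = (α a).map (Option.map g.2) := by
  unfold actC
  simp

theorem tot_act (l : Bool) (g : G n m) (ω : Pr n m) :
    tot l (actC g ω.1, actC g ω.2) = tot l ω := by
  have h1 : cc (actC g ω.1, actC g ω.2) = cc ω := by
    unfold cc
    symm
    refine Finset.card_bij (fun p _ => (g.1 p.1, g.1 p.2.1, g.2 p.2.2)) ?_ ?_ ?_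
    · rintro ⟨a, b, j⟩ h
      simp only [Finset.mem_filter, Finset.mem_univ, true_and] at h ⊢
      rw [actC_apply, actC_apply, h.1, h.2]
      simp
    · rintro ⟨a, b, j⟩ _ ⟨a', b', j'⟩ _ h
      simpa using h
    · rintro ⟨a, b, j⟩ h
      simp only [Finset.mem_filter, Finset.mem_univ, true_and] at h
      refine ⟨(g.1.symm a, g.1.symm b, g.2.symm j), ?_, by simp⟩
      simp only [Finset.mem_filter, Finset.mem_univ, true_and]
      unfold actC at h
      simp only [Option.map_eq_some_iff] at h
      obtain ⟨⟨o, ho, j', hj', rfl⟩, ⟨o', ho', j'', hj'', hj⟩⟩ := h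
      rw [ho, ho', hj', hj'']
      have hjj := g.2.injective hj
      subst hjj
      simp
  have h2 : rc (actC g ω.1, actC g ω.2) = rc ω := by
    unfold rc
    symm
    refine Finset.card_bij (fun a _ => g.1 a) ?_ ?_ ?_
    · intro a h
      simp only [Finset.mem_filter, Finset.mem_univ, true_and] at h ⊢
      rw [actC_apply, actC_apply]
      simpa using h
    · intro a _ a' _ h
      exact g.1.injective h
    · intro a h
      simp only [Finset.mem_filter, Finset.mem_univ, true_and] at h
      refine ⟨g.1.symm a, ?_, by simp⟩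
      simp only [Finset.mem_filter, Finset.mem_univ, true_and]
      unfold actC at h
      simpa using h
  unfold tot
  rw [h1, h2]

/-- support condition on the number of coincidences -/
def ST (n m : ℕ) (l : Bool) (c : ℕ) : Submodule ℂ (Fn2 n m) where
  carrier := {f | ∀ ω, f ω ≠ 0 → tot l ω < c}
  zero_mem' := by intro α h; exact absurd rfl h
  add_mem' := by
    intro f g hf hg α h
    by_contra hv
    have h1 : f α = 0 := by by_contra h1; exact hv (hf α h1)
    have h2 : g α = 0 := by by_contra h2; exact hv (hg α h2)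
    exact h (by rw [Pi.add_apply, h1, h2, add_zero])
  smul_mem' := by
    intro c f hf α h
    exact hf α (fun h1 => h (by rw [Pi.smul_apply, h1, smul_zero]))

/-- the top part -/
def top (n m : ℕ) (l : Bool) (c : ℕ) : Fn2 n m →ₗ[ℂ] Fn2 n m where
  toFun f := fun ω => if tot l ω = c then f ω else 0
  map_add' := by
    intro f g; funext ω
    simp only [Pi.add_apply]
    split_ifs <;> simp
  map_smul' := by
    intro c f; funext ω
    simp only [Pi.smul_apply, RingHom.id_apply]
    split_ifs <;> simp

theorem pos_aux (l : Bool) (c : ℕ) (f : Cf n m → ℂ) (hf : PosH f) (t : Cf n m → ℕ)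
    (hs : ∀ α, f α ≠ 0 → t α < c + 1) (A : Finset (Fin m)) (α : Cf n m) (a : Fin n) (t0 : ℕ)
    (hout : ∀ x, x ∉ A → t (Function.update α a (some (some x))) = t0)
    (hin : ∀ x, x ∈ A → t0 < t (Function.update α a (some (some x)))) :
    ∑ x ∈ Aᶜ, (if t (Function.update α a (some (some x))) = c then
      f (Function.update α a (some (some x))) else 0) = 0 := by
  by_cases h0 : t0 = c
  · have h1 : ∀ x ∈ A, f (Function.update α a (some (some x))) = 0 := by
      intro x hx
      by_contra hne
      have := hs _ hne
      have := hin x hx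
      omega
    have h2 := hf α a
    rw [← Finset.sum_compl_add_sum A, Finset.sum_eq_zero h1, add_zero] at h2
    rw [← h2]
    refine Finset.sum_congr rfl fun x hx => ?_
    rw [hout x (Finset.mem_compl.1 hx), if_pos h0]
  · refine Finset.sum_eq_zero fun x hx => ?_
    rw [hout x (Finset.mem_compl.1 hx), if_neg h0]

theorem lab_aux (c : ℕ) (f : Cf n m → ℂ) (hf : LabH f) (t : Cf n m → ℕ)
    (hs : ∀ α, f α ≠ 0 → t α < c + 1) (β : Cf n m) (α : Cf n m) (s : Option (Fin m)) (t0 : ℕ)
    (hout : ∀ b, α b = none → β b = none → t (Function.update α b (some s)) = t0)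
    (hin : ∀ b, α b = none → β b ≠ none → t0 < t (Function.update α b (some s))) :
    ∑ b ∈ Finset.univ.filter (fun b => α b = none ∧ β b = none),
      (if t (Function.update α b (some s)) = c then
      f (Function.update α b (some s)) else 0) = 0 := by
  by_cases h0 : t0 = c
  · have h2 := hf α s
    rw [← h2]
    rw [← Finset.sum_filter_add_sum_filter_not (Finset.univ.filter (fun b => α b = none))
      (fun b => β b = none)]
    have h1 : ∑ b ∈ (Finset.univ.filter (fun b => α b = none)).filter (fun b => ¬ β b = none),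
        f (Function.update α b (some s)) = 0 := by
      refine Finset.sum_eq_zero fun b hb => ?_
      rw [Finset.mem_filter, Finset.mem_filter] at hb
      by_contra hne
      have := hs _ hne
      have := hin b hb.1.2 hb.2
      omega
    rw [h1, add_zero, Finset.filter_filter]
    refine Finset.sum_congr rfl fun b hb => ?_
    rw [Finset.mem_filter] at hb
    rw [hout b hb.2.1 hb.2.2, if_pos h0]
  · refine Finset.sum_eq_zero fun b hb => ?_
    rw [Finset.mem_filter] at hb
    rw [hout b hb.2.1 hb.2.2, if_neg h0]

theorem key (l : Bool) (P : ℕ → ℕ → ℕ → ℕ → Prop) (c : ℕ) (f : Fn2 n m)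
    (hf : f ∈ UH n m l ⊓ S2 n m P) (hc : f ∈ ST n m l (c + 1)) :
    top n m l c f ∈ NH n m l ⊓ S2 n m P := by
  rw [Submodule.mem_inf] at hf ⊢
  obtain ⟨⟨hU1, hU2⟩, hS⟩ := hf
  have hne : ∀ ω, top n m l c f ω ≠ 0 → f ω ≠ 0 := by
    intro ω h h0
    apply h
    show (if tot l ω = c then f ω else 0) = 0
    rw [h0, ite_self]
  refine ⟨⟨fun ω h => ?_, ⟨fun α β a => ?_, fun α β a => ?_⟩, fun hl => ⟨fun α β s => ?_,
    fun α β s => ?_⟩⟩, fun ω h => hS ω (hne ω h)⟩
  · exact ⟨(hU1 ω.2).1 ω.1 (hne ω h), (hU2 ω.1).1 ω.2 (hne ω h)⟩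
  · exact pos_aux l c (fun α => f (α, β)) (hU1 β).2.1 (fun α => tot l (α, β))
      (fun α h => hc (α, β) h) (cols β) α a _ (fun x hx => tot_upd_out l α β a x hx)
      (fun x hx => tot_upd_in l α β a x hx)
  · refine pos_aux l c (fun β => f (α, β)) (hU2 α).2.1 (fun β => tot l (α, β))
      (fun β h => hc (α, β) h) (cols α) β a (tot l (Function.update β a none, α) +
        (if l = true then (if α a = none then 0 else 1) else 0)) (fun x hx => ?_) (fun x hx => ?_)
    · have := tot_upd_out l β α a x hx
      rwa [tot_swap l α (Function.update β a (some (some x)))] at this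
    · have := tot_upd_in l β α a x hx
      rwa [tot_swap l α (Function.update β a (some (some x)))] at this
  · subst hl
    refine lab_aux c (fun α => f (α, β)) ((hU1 β).2.2 rfl) (fun α => tot true (α, β))
      (fun α h => hc (α, β) h) β α s (tot true (α, β) + nb β s) (fun b hb hb' => ?_)
      (fun b hb hb' => ?_)
    · rw [tot_upd_lab α β b hb s, if_pos hb']
      rfl
    · rw [tot_upd_lab α β b hb s, if_neg hb']
      omega
  · subst hl
    have h1 : ∑ b ∈ Finset.univ.filter (fun b => β b = none ∧ α b = none),
        (if tot true (α, Function.update β b (some s)) = c then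
        f (α, Function.update β b (some s)) else 0) = 0 := by
      refine lab_aux c (fun β => f (α, β)) ((hU2 α).2.2 rfl) (fun β => tot true (α, β))
        (fun β h => hc (α, β) h) α β s (tot true (α, β) + nb α s) (fun b hb hb' => ?_)
        (fun b hb hb' => ?_)
      · have h5 := tot_upd_lab β α b hb s
        rw [if_pos hb', tot_swap true α β, tot_swap true α] at h5
        exact h5
      · have h5 := tot_upd_lab β α b hb s
        rw [if_neg hb', tot_swap true α β, tot_swap true α] at h5
        show _ < tot true (α, Function.update β b (some s))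
        omega
    rw [← h1]
    refine Finset.sum_congr ?_ fun b _ => rfl
    ext b
    simp only [Finset.mem_filter, Finset.mem_univ, true_and]
    exact And.comm

theorem stmt_LT (hPROJ : Stmt_PROJ) (hACT : Stmt_ACT) : Stmt_LT := by
  intro n m l P
  obtain ⟨hA1, hA2, -, -, -, hU, -, -⟩ := hACT n m
  have hmul : ∀ g h : G n m, rF2 (g * h) = rF2 g ∘ₗ rF2 h := by
    intro g h
    refine LinearMap.ext fun f => funext fun ω => ?_
    show f (actC (g * h)⁻¹ ω.1, actC (g * h)⁻¹ ω.2) =
      f (actC h⁻¹ (actC g⁻¹ ω.1), actC h⁻¹ (actC g⁻¹ ω.2))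
    rw [mul_inv_rev, hA1, hA1]
  have hone : rF2 (1 : G n m) = LinearMap.id := by
    refine LinearMap.ext fun f => funext fun ω => ?_
    show f (actC (1 : G n m)⁻¹ ω.1, actC (1 : G n m)⁻¹ ω.2) = f ω
    rw [inv_one, hA2, hA2]
  have htot : ∀ (g : G n m) (c : ℕ), ∀ f ∈ ST n m l c, rF2 g f ∈ ST n m l c := by
    intro g c f hf ω hω
    have := hf _ hω
    rwa [tot_act] at this
  have htop : ∀ (g : G n m) (c : ℕ), top n m l c ∘ₗ rF2 g = rF2 g ∘ₗ top n m l c := by
    intro g c
    refine LinearMap.ext fun f => funext fun ω => ?_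
    show (if tot l ω = c then f (actC g⁻¹ ω.1, actC g⁻¹ ω.2) else 0) =
      (if tot l (actC g⁻¹ ω.1, actC g⁻¹ ω.2) = c then f (actC g⁻¹ ω.1, actC g⁻¹ ω.2) else 0)
    rw [tot_act]
  have main : ∀ c : ℕ, ∃ Θ : Fn2 n m →ₗ[ℂ] Fn2 n m, (∀ g, Θ ∘ₗ rF2 g = rF2 g ∘ₗ Θ) ∧
      ∀ f ∈ (UH n m l ⊓ S2 n m P) ⊓ ST n m l c, Θ f ∈ NH n m l ⊓ S2 n m P ∧
        Θ f ∈ ST n m l c ∧ (Θ f = 0 → f = 0) := by
    intro c
    induction c with
    | zero =>
      refine ⟨0, fun g => by simp, fun f hf => ⟨by simp, by simp, fun _ => ?_⟩⟩
      funext ω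
      by_contra h
      exact absurd ((Submodule.mem_inf.1 hf).2 ω h) (by omega)
    | succ c ih =>
      obtain ⟨Θ, hΘ, hΘf⟩ := ih
      obtain ⟨Q, hQ1, hQ2, hQ3⟩ := hPROJ (G n m) (Fn2 n m) rF2 hmul hone
        ((UH n m l ⊓ S2 n m P) ⊓ ST n m l c) (by
          intro g w hw
          rw [Submodule.mem_inf] at hw ⊢
          exact ⟨hU g l P w hw.1, htot g c w hw.2⟩)
      have hmono : ∀ f, f ∈ ST n m l c → f ∈ ST n m l (c + 1) := by
        intro f hf ω hω
        have := hf ω hω
        omega
      refine ⟨Θ ∘ₗ Q + top n m l c, fun g => ?_, fun f hf => ?_⟩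
      · rw [LinearMap.add_comp, LinearMap.comp_add, htop g c, LinearMap.comp_assoc, hQ3,
          ← LinearMap.comp_assoc, hΘ, LinearMap.comp_assoc]
      · rw [Submodule.mem_inf] at hf
        obtain ⟨h1, h2, h3⟩ := hΘf (Q f) (hQ1 f)
        have hk := key l P c f hf.1 hf.2
        refine ⟨Submodule.add_mem _ h1 hk, Submodule.add_mem _ (hmono _ h2) ?_, fun h0 => ?_⟩
        · intro ω hω
          by_contra hlt
          apply hω
          show (if tot l ω = c then f ω else 0) = 0
          rw [if_neg (by omega)]
        · have hfc : f ∈ ST n m l c := by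
            intro ω hω
            have hlt := hf.2 ω hω
            by_contra hge
            have htc : tot l ω = c := by omega
            have h4 : Θ (Q f) ω = 0 := by
              by_contra h5
              have := h2 ω h5
              omega
            have h6 := congrFun h0 ω
            change Θ (Q f) ω + (if tot l ω = c then f ω else 0) = 0 at h6
            rw [h4, if_pos htc, zero_add] at h6
            exact hω h6
          have hQf : Q f = f := hQ2 f (Submodule.mem_inf.2 ⟨hf.1, hfc⟩)
          have htop0 : top n m l c f = 0 := by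
            funext ω
            show (if tot l ω = c then f ω else 0) = 0
            split_ifs with h
            · by_contra h7
              have := hfc ω h7
              omega
            · rfl
          have h8 : Θ (Q f) + top n m l c f = 0 := h0
          rw [htop0, add_zero] at h8
          rw [← hQf]
          exact h3 h8
  obtain ⟨Θ, hΘ, hΘf⟩ := main (Finset.univ.sup (tot (n := n) (m := m) l) + 1)
  refine ⟨Θ, hΘ, fun f hf => ?_⟩
  have hST : f ∈ ST n m l (Finset.univ.sup (tot (n := n) (m := m) l) + 1) := by
    intro ω _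
    have : tot l ω ≤ Finset.univ.sup (tot (n := n) (m := m) l) :=
      Finset.le_sup (f := tot (n := n) (m := m) l) (Finset.mem_univ ω)
    omega
  obtain ⟨h1, -, h3⟩ := hΘf f (Submodule.mem_inf.2 ⟨hf, hST⟩)
  exact ⟨h1, h3⟩

end Pool.RookLC.helper17
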