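import Pool.Agent.Work.MP_6f78fb_rk.Interface

open scoped BigOperators TensorProduct
open Classical

noncomputable section

namespace Pool.RookLC.helper17

variable {n m : ℕ}

theorem tt_upd_col (α : Cf n m) (a : Fin n) (x : Fin m) :
    tt (Function.update α a (some (some x))) = tt (Function.update α a none) := by
  unfold tt
  congr 1
  ext b
  by_cases hb : b = a
  · subst hb; simp
  · simp [Function.update_of_ne hb]

theorem tt_upd_lab (α : Cf n m) (b : Fin n) (hb : α b = none) (s : Option (Fin m)) :
    tt (Function.update α b (some s)) = tt α + (if s = none then 1 else 0) := by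
  unfold tt
  by_cases hs : s = none
  · subst hs
    have : (Finset.univ.filter fun a => Function.update α b (some none) a = some none) =
        insert b (Finset.univ.filter fun a => α a = some none) := by
      ext a
      by_cases ha : a = b
      · subst ha; simp
      · simp [Function.update_of_ne ha, ha]
    rw [this, Finset.card_insert_of_notMem]
    · simp
    · simp [hb]
  · have : (Finset.univ.filter fun a => Function.update α b (some s) a = some none) =
        (Finset.univ.filter fun a => α a = some none) := by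
      ext a
      by_cases ha : a = b
      · subst ha; simp [hb, hs]
      · simp [Function.update_of_ne ha]
    rw [this]
    simp [hs]

/-- cut by the number of marks -/
def cut (n m h : ℕ) (g : Fn n m) : Fn n m := fun α => if tt α ≤ h then g α else 0

theorem cut_mem (l : Bool) (h : ℕ) (g : Fn n m) (hg : g ∈ H1 n m l) : cut n m h g ∈ H1 n m l := by
  obtain ⟨h1, h2, h3⟩ := hg
  refine ⟨fun α hα => h1 α ?_, fun α a => ?_, fun hl α s => ?_⟩
  · intro h0
    apply hα
    unfold cut
    rw [h0, ite_self]
  · unfold cut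
    by_cases ht : tt (Function.update α a none) ≤ h
    · rw [← h2 α a]
      refine Finset.sum_congr rfl fun x _ => ?_
      rw [tt_upd_col, if_pos ht]
    · refine Finset.sum_eq_zero fun x _ => ?_
      rw [tt_upd_col, if_neg ht]
  · unfold cut
    by_cases ht : tt α + (if s = none then 1 else 0) ≤ h
    · rw [← h3 hl α s]
      refine Finset.sum_congr rfl fun b hb => ?_
      rw [Finset.mem_filter] at hb
      rw [tt_upd_lab α b hb.2 s, if_pos ht]
    · refine Finset.sum_eq_zero fun b hb => ?_
      rw [Finset.mem_filter] at hb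
      rw [tt_upd_lab α b hb.2 s, if_neg ht]

theorem stmt_THS (hVSP : Stmt_VSP) (hLRED : Stmt_LRED) (hSPAN : Stmt_SPAN) (hFILL : Stmt_FILL)
    (hMRK : Stmt_MRK) : Stmt_THS := by
  intro n m r d l hr hl f hf
  obtain ⟨φ, hφ, hfφ⟩ := hVSP n m r d f hf
  obtain ⟨φ0, hφ0, hLab, hfφ0⟩ : ∃ φ0 : Fn n m, (∀ α, φ0 α ≠ 0 → Um d α) ∧
      (l = true → LabH φ0) ∧ f - Th n m φ0 ∈ grI (UZ n m r) := by
    cases l with
    | false => exact ⟨φ, hφ, fun h => absurd h (by simp), hfφ⟩
    | true =>
      obtain ⟨φ0, h1, h2, h3⟩ := hLRED n m d φ hφ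
      have hrm := hl rfl
      subst hrm
      refine ⟨φ0, h1, fun _ => h2, ?_⟩
      have := (grI (UZ n r r)).add_mem hfφ h3
      rwa [sub_add_sub_cancel] at this
  obtain ⟨g, hg, hLg⟩ := hSPAN n m d l φ0 hφ0 hLab
  rw [Submodule.mem_inf] at hg
  have hF := hFILL n m r g hg.1.1
  rw [hLg] at hF
  refine ⟨cut n m (n - r) g, ?_, ?_⟩
  · refine Submodule.mem_inf.2 ⟨cut_mem l _ g hg.1, ?_⟩
    intro α hα
    unfold cut at hα
    by_cases ht : tt α ≤ n - r
    · rw [if_pos ht] at hα
      exact ⟨hg.2 α hα, ht⟩
    · rw [if_neg ht] at hα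
      exact absurd rfl hα
  · have hdiff : Th n m g - Th n m (cut n m (n - r) g) ∈ grI (UZ n m r) := by
      show ∑ α, g α • mon α - ∑ α, cut n m (n - r) g α • mon α ∈ _
      rw [← Finset.sum_sub_distrib]
      refine Ideal.sum_mem _ fun α _ => ?_
      unfold cut
      by_cases ht : tt α ≤ n - r
      · rw [if_pos ht, sub_self]
        exact Ideal.zero_mem _
      · rw [if_neg ht, zero_smul, sub_zero, MvPolynomial.smul_eq_C_mul]
        exact Ideal.mul_mem_left _ _ (hMRK n m r α hr (by omega))
    have h1 := (grI (UZ n m r)).add_mem ((grI (UZ n m r)).add_mem hfφ0 hF) hdiff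
    rwa [sub_add_sub_cancel, sub_add_sub_cancel] at h1

end Pool.RookLC.helper17
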